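import Pool.Agent.H63.FDS.Defs
import Pool.Agent.H63.FDS.Old

/-!
# The Kakeya inequality for families of tubes with few directions in every ball, in any Euclidean
space of dimension `d + 1`
-/

set_option autoImplicit false

open MeasureTheory
open scoped RealInnerProductSpace

namespace FDS

section

variable {E : Type} [NormedAddCommGroup E] [InnerProductSpace ℝ E]

theorem isClosed_tube (δ : ℝ) (c e : E) : IsClosed (tube δ c e) := by
  have h1 : IsClosed {x : E | |⟪x - c, e⟫| ≤ 1 / 2} :=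
    isClosed_le (by fun_prop) continuous_const
  have h2 : IsClosed {x : E | ‖(x - c) - ⟪x - c, e⟫ • e‖ ≤ δ} :=
    isClosed_le (by fun_prop) continuous_const
  exact h1.inter h2

theorem mem_tube_iff {d : ℕ} (φ : E ≃ₗᵢ[ℝ] EuclideanSpace ℝ (Fin (d + 1))) (δ : ℝ) (c e x : E) :
    x ∈ tube δ c e ↔
      φ x ∈ Pool.Agent.H63.FDS.OldFewDirectionsExact.tube δ (φ c) (φ e) := by
  have h1 : ⟪φ x - φ c, φ e⟫ = ⟪x - c, e⟫ := by
    rw [← map_sub, LinearIsometryEquiv.inner_map_map]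
  have h2 : ‖(φ x - φ c) - ⟪φ x - φ c, φ e⟫ • φ e‖ = ‖(x - c) - ⟪x - c, e⟫ • e‖ := by
    rw [h1, ← map_sub, ← map_smul, ← map_sub, LinearIsometryEquiv.norm_map]
  show (|⟪x - c, e⟫| ≤ 1 / 2 ∧ ‖(x - c) - ⟪x - c, e⟫ • e‖ ≤ δ) ↔
    (|⟪φ x - φ c, φ e⟫| ≤ 1 / 2 ∧ ‖(φ x - φ c) - ⟪φ x - φ c, φ e⟫ • φ e‖ ≤ δ)
  rw [h2, h1]

end

theorem fewDirectionsExact (d : ℕ) (hd : 2 ≤ d) (σ A : ℝ) (hσ : 0 ≤ σ)
    (hσ1 : σ = 0 ∨ σ < 1 - 2 / (d : ℝ))
    (q : ENNReal) (hq : ENNReal.ofReal (1 + 1 / ((d : ℝ) * (1 - σ))) < q)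
    (E : Type) [NormedAddCommGroup E] [InnerProductSpace ℝ E] [FiniteDimensional ℝ E]
    [MeasurableSpace E] [BorelSpace E] (hE : Module.finrank ℝ E = d + 1) :
    ∃ C : ℝ, ∀ δ : ℝ, 0 < δ → δ < 1 →
      ∀ (N : ℕ) (c e : Fin N → E),
        (∀ i, ‖e i‖ = 1) → (∀ i j, i ≠ j → δ ≤ ‖e i - e j‖) →
        (d = 2 ∨ Spread δ (A * (N : ℝ) ^ σ) e) →
        eLpNorm (fun x => ∑ i, (tube δ (c i) (e i)).indicator (fun _ => (1 : ℝ)) x) q volume ≤
        ENNReal.ofReal (C * (δ ^ ((d : ℝ) / q.toReal) *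
          (N : ℝ) ^ (1 - 1 / (q.toReal * d)))) := by
  obtain ⟨C, hC⟩ := Pool.Agent.H63.FDS.OldFewDirectionsExact.result d hd σ A hσ hσ1 q hq
  refine ⟨C, ?_⟩
  intro δ hδ hδ1 N c e he1 he2 hM
  set b : OrthonormalBasis (Fin (d + 1)) ℝ E :=
    (stdOrthonormalBasis ℝ E).reindex (finCongr hE) with hb
  set φ : E ≃ₗᵢ[ℝ] EuclideanSpace ℝ (Fin (d + 1)) := b.repr with hφ
  have hmp : MeasurePreserving φ volume volume := b.measurePreserving_repr
  have h := hC δ hδ hδ1 N (fun i => φ (c i)) (fun i => φ (e i))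
    (fun i => by rw [LinearIsometryEquiv.norm_map]; exact he1 i)
    (fun i j hij => by
      rw [← map_sub, LinearIsometryEquiv.norm_map]; exact he2 i j hij)
    (by
      rcases hM with h2 | h2
      · exact Or.inl h2
      · right
        intro i r hr
        have h3 := h2 i r hr
        have h4 : ({j | ‖φ (e j) - φ (e i)‖ ≤ r} : Set (Fin N)) = {j | ‖e j - e i‖ ≤ r} := by
          ext j
          simp only [Set.mem_ofPred_eq]
          rw [← map_sub, LinearIsometryEquiv.norm_map]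
        rw [h4]
        exact h3)
  refine le_trans (le_of_eq ?_) h
  have hcl : ∀ i, MeasurableSet
      (Pool.Agent.H63.FDS.OldFewDirectionsExact.tube δ (φ (c i)) (φ (e i))) := fun i =>
    (isClosed_tube (E := EuclideanSpace ℝ (Fin (d + 1))) δ (φ (c i)) (φ (e i))).measurableSet
  have hmeas : Measurable (fun x : EuclideanSpace ℝ (Fin (d + 1)) =>
      ∑ i, (Pool.Agent.H63.FDS.OldFewDirectionsExact.tube δ (φ (c i)) (φ (e i))).indicator
        (fun _ => (1 : ℝ)) x) :=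
    Finset.measurable_sum _ fun i _ => measurable_const.indicator (hcl i)
  rw [← eLpNorm_comp_measurePreserving hmeas.aestronglyMeasurable hmp]
  congr 1
  funext x
  simp only [Function.comp]
  refine Finset.sum_congr rfl fun i _ => ?_
  by_cases hx : x ∈ tube δ (c i) (e i)
  · rw [Set.indicator_of_mem hx, Set.indicator_of_mem ((mem_tube_iff φ δ (c i) (e i) x).1 hx)]
  · rw [Set.indicator_of_notMem hx,
      Set.indicator_of_notMem (fun h' => hx ((mem_tube_iff φ δ (c i) (e i) x).2 h'))]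

end FDS
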