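import Mathlib

/-!
# Tubes in a Euclidean space
-/

set_option autoImplicit false

open scoped RealInnerProductSpace

namespace FDS

/-- The tube of length `1`, radius `δ`, centre `c` and axis direction `e` in the Euclidean space
`E`. -/
def tube {E : Type} [NormedAddCommGroup E] [InnerProductSpace ℝ E] (δ : ℝ) (c e : E) : Set E :=
  {x | |⟪x - c, e⟫| ≤ 1 / 2 ∧ ‖(x - c) - ⟪x - c, e⟫ • e‖ ≤ δ}

/-- At most `M (r / δ) ^ 2` directions of the family are at distance at most `r` from one of them,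
for all `r ≥ δ`. -/
def Spread {E : Type} [NormedAddCommGroup E] {N : ℕ} (δ M : ℝ) (e : Fin N → E) : Prop :=
  ∀ i, ∀ r : ℝ, δ ≤ r → ({j | ‖e j - e i‖ ≤ r}.ncard : ℝ) ≤ M * (r / δ) ^ 2

end FDS
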